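import Mathlib
import Pool.Agent.Lib.HadwigerIllum

/-!
# Unconditional convex bodies: illumination of extreme points by hierarchical directions
-/

set_option autoImplicit false

open Set

namespace Pool.Agent.Uncond

open Pool.Agent.Lib.HadwigerIllum

section extreme

variable {E : Type*} [NormedAddCommGroup E] [NormedSpace ℝ E]

/-- The points of `K` not illuminated by `u` form an extreme subset of `K`. -/
lemma isExtreme_dark {K : Set E} (hK : Convex ℝ K) (u : E) :
    IsExtreme ℝ K {x ∈ K | ∀ ε : ℝ, 0 < ε → x + ε • u ∉ interior K} := by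
  refine ⟨fun x hx => hx.1, ?_⟩
  intro y hy z hz x hx hxyz
  refine ⟨hy, fun ε hε h => ?_⟩
  obtain ⟨a, b, ha, hb, hab, rfl⟩ := hxyz
  refine hx.2 (a * ε) (by positivity) ?_
  have h1 : a • (y + ε • u) + b • z ∈ interior K :=
    hK.combo_interior_self_mem_interior h hz ha hb.le hab
  convert h1 using 1
  rw [smul_add, smul_smul]
  abel

/-- If finitely many directions illuminate every extreme point of a compact convex set, then that
many translates of the interior cover it. -/
theorem coverBy_of_illum_extreme {K : Set E} (hK : Convex ℝ K) (hc : IsCompact K) {N : ℕ}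
    (U : Finset E) (hN : U.card ≤ N)
    (hU : ∀ x ∈ K.extremePoints ℝ, ∃ u ∈ U, ∃ ε : ℝ, 0 < ε ∧ x + ε • u ∈ interior K) :
    CoverBy K N := by
  apply coverBy_of_illum hK hc U hN
  by_contra hcon
  push Not at hcon
  obtain ⟨x₀, hx₀, hdark⟩ := hcon
  set B : Set E := {x ∈ K | ∀ u ∈ U, ∀ ε : ℝ, 0 < ε → x + ε • u ∉ interior K} with hB
  have hBe : IsExtreme ℝ K B := by
    refine ⟨fun x hx => hx.1, ?_⟩
    intro y hy z hz x hx hxyz
    refine ⟨hy, fun u hu => ?_⟩
    exact ((isExtreme_dark hK u).2 hy hz ⟨hx.1, hx.2 u hu⟩ hxyz).2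
  have hBc : IsCompact B := by
    have hB2 : B = K ∩ ⋂ u ∈ U, ⋂ ε : {ε : ℝ // 0 < ε}, (fun x : E => x + (ε : ℝ) • u) ⁻¹'
        (interior K)ᶜ := by
      ext x
      simp only [hB, mem_ofPred_eq, mem_inter_iff, mem_iInter, mem_preimage, mem_compl_iff,
        Subtype.forall]
    rw [hB2]
    apply hc.inter_right
    refine isClosed_biInter fun u _ => isClosed_iInter fun ε => ?_
    exact isOpen_interior.isClosed_compl.preimage (by fun_prop)
  obtain ⟨x, hx⟩ := hBc.extremePoints_nonempty ⟨x₀, hx₀, hdark⟩
  have hxK : x ∈ K.extremePoints ℝ := hBe.extremePoints_subset_extremePoints hx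
  obtain ⟨u, hu, ε, hε, h⟩ := hU x hxK
  exact (extremePoints_subset hx).2 u hu ε hε h

end extreme

variable {n : ℕ}

/-- `K` is closed under reflections in the coordinate hyperplanes. -/
def Refl (K : Set (Fin n → ℝ)) : Prop := ∀ x ∈ K, ∀ i, Function.update x i (-x i) ∈ K

lemma update_mem {K : Set (Fin n → ℝ)} (hK : Convex ℝ K) (hs : Refl K) {x : Fin n → ℝ}
    (hx : x ∈ K) (i : Fin n) {c : ℝ} (hc : |c| ≤ |x i|) : Function.update x i c ∈ K := by
  by_cases h0 : x i = 0
  · have : c = x i := by rw [h0] at hc ⊢; simpa using hc
    rw [this, Function.update_eq_self]; exact hx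
  · set a : ℝ := (1 + c / x i) / 2 with ha
    set b : ℝ := (1 - c / x i) / 2 with hb
    have h1 : |c / x i| ≤ 1 := by rw [abs_div, div_le_one (by positivity)]; exact hc
    have h2 := abs_le.1 h1
    have ha0 : 0 ≤ a := by rw [ha]; linarith
    have hb0 : 0 ≤ b := by rw [hb]; linarith
    have hab : a + b = 1 := by rw [ha, hb]; ring
    have h3 := hK hx (hs x hx i) ha0 hb0 hab
    convert h3 using 1
    ext j
    simp only [Pi.add_apply, Pi.smul_apply, smul_eq_mul]
    by_cases hj : j = i
    · subst hj
      simp only [Function.update_self]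
      rw [ha, hb]; field_simp; ring
    · simp only [Function.update_of_ne hj]
      rw [← add_mul, hab, one_mul]

/-- A convex set symmetric in all coordinate hyperplanes is solid. -/
lemma solid {K : Set (Fin n → ℝ)} (hK : Convex ℝ K) (hs : Refl K) {x y : Fin n → ℝ}
    (hx : x ∈ K) (h : ∀ i, |y i| ≤ |x i|) : y ∈ K := by
  have key : ∀ s : Finset (Fin n), (fun i => if i ∈ s then y i else x i) ∈ K := by
    intro s
    induction s using Finset.induction_on with
    | empty => simpa using hx
    | insert a s ha ih =>
      have h1 : |y a| ≤ |(fun i => if i ∈ s then y i else x i) a| := by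
        simp only [ha, if_false]; exact h a
      have h2 := update_mem hK hs ih a h1
      convert h2 using 1
      ext j
      by_cases hj : j = a
      · subst hj; simp
      · simp [Finset.mem_insert, hj]
  simpa using key Finset.univ

/-- A point strictly dominated by a point of `K` is interior. -/
lemma mem_interior_of_lt {K : Set (Fin n → ℝ)} (hK : Convex ℝ K) (hs : Refl K)
    {x y : Fin n → ℝ} (hx : x ∈ K) (h : ∀ i, |y i| < |x i|) : y ∈ interior K := by
  rw [mem_interior]
  refine ⟨{z | ∀ i, |z i| < |x i|}, fun z hz => solid hK hs hx fun i => (hz i).le, ?_, h⟩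
  have : {z : Fin n → ℝ | ∀ i, |z i| < |x i|} = ⋂ i, {z | |z i| < |x i|} := by
    ext z; simp
  rw [this]
  exact isOpen_iInter_of_finite fun i => isOpen_lt (by fun_prop) continuous_const

/-- The indicator vector of a finset. -/
def ind (F : Finset (Fin n)) : Fin n → ℝ := fun i => if i ∈ F then 1 else 0

lemma ind_mem_iff_solid {K : Set (Fin n → ℝ)} (hK : Convex ℝ K) (hs : Refl K)
    {F G : Finset (Fin n)} (hF : ind F ∈ K) (hG : G ⊆ F) : ind G ∈ K := by
  refine solid hK hs hF fun i => ?_
  unfold ind
  by_cases h1 : i ∈ G
  · simp [h1, hG h1]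
  · simp only [h1, if_false, abs_zero]; positivity

/-- **Hierarchical directions.** Let `w` be positive weights, each larger than twice the sum of all
smaller ones, and `x ∈ K` a point with coordinates `-1, 0, 1` and support `F`.  If for every `j`
outside `F` the indicator of `j` together with the elements of `F` of smaller weight lies in `K`,
then every direction `u` with `|u i| = w i` and `u i = - x i * w i` on `F` illuminates `x`. -/
theorem illum_of_weights {K : Set (Fin n → ℝ)} (hK : Convex ℝ K) (hs : Refl K)
    {x : Fin n → ℝ} (hx : x ∈ K) (F : Finset (Fin n))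
    (hxF : ∀ i ∈ F, |x i| = 1) (hxF' : ∀ i ∉ F, x i = 0)
    (w : Fin n → ℝ) (hw : ∀ i, 0 < w i) (hwi : Function.Injective w)
    (hw2 : ∀ i, 2 * ∑ j ∈ Finset.univ.filter (fun j => w j < w i), w j < w i)
    (hgood : ∀ j ∉ F, ind (insert j (F.filter (fun i => w i < w j))) ∈ K)
    (u : Fin n → ℝ) (hu : ∀ i ∈ F, u i = - x i * w i) (hu' : ∀ i ∉ F, |u i| = w i) :
    ∃ ε : ℝ, 0 < ε ∧ x + ε • u ∈ interior K := by
  classical
  -- the step
  set W : ℝ := ∑ j, w j with hW
  have hW0 : 0 ≤ W := Finset.sum_nonneg fun j _ => (hw j).le
  set ε : ℝ := 1 / (2 * (W + 1)) with hε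
  have hε0 : 0 < ε := by positivity
  have hεW : 2 * ε * W ≤ 1 := by
    rw [hε]
    have : 2 * (1 / (2 * (W + 1))) * W = W / (W + 1) := by field_simp
    rw [this, div_le_one (by positivity)]; linarith
  have hεw : ∀ i, ε * w i < 1 := by
    intro i
    have h1 : w i ≤ W := Finset.single_le_sum (fun j _ => (hw j).le) (Finset.mem_univ i)
    have h2 : ε * w i ≤ ε * W := by gcongr
    have h3 : 0 < ε * w i := by have := hw i; positivity
    nlinarith
  refine ⟨ε, hε0, ?_⟩
  -- the dominating point
  set t : Fin n → ℝ := fun j => if j ∈ F then 0 else 2 * ε * w j with ht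
  have ht0 : ∀ j, 0 ≤ t j := by
    intro j; simp only [ht]; split_ifs
    · exact le_rfl
    · have := hw j; positivity
  have htW : ∑ j, t j ≤ 1 := by
    refine le_trans ?_ hεW
    rw [hW, Finset.mul_sum]
    refine Finset.sum_le_sum fun j _ => ?_
    simp only [ht]; split_ifs
    · have := hw j; positivity
    · exact le_rfl
  set z : Option (Fin n) → (Fin n → ℝ) := fun o => match o with
    | none => ind F
    | some j => if j ∈ F then ind F else ind (insert j (F.filter (fun i => w i < w j))) with hz
  set c : Option (Fin n) → ℝ := fun o => match o with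
    | none => 1 - ∑ j, t j
    | some j => t j with hc
  have hFK : ind F ∈ K := by
    refine solid hK hs hx fun i => ?_
    unfold ind
    by_cases h1 : i ∈ F
    · simp [h1, hxF i h1]
    · simp [h1]
  have hy : ∑ o, c o • z o ∈ K := by
    apply hK.sum_mem
    · intro o _
      cases o with
      | none => simp only [hc]; linarith
      | some j => simp only [hc]; exact ht0 j
    · rw [Fintype.sum_option]; simp only [hc]; ring
    · intro o _
      cases o with
      | none => simp only [hz]; exact hFK
      | some j =>
        simp only [hz]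
        split_ifs with h
        · exact hFK
        · exact hgood j h
  have hyval : ∀ i, (∑ o, c o • z o) i =
      (1 - ∑ j, t j) * ind F i + ∑ j, t j * z (some j) i := by
    intro i
    rw [Finset.sum_apply, Fintype.sum_option]
    simp only [hc, hz, Pi.smul_apply, smul_eq_mul]
  refine mem_interior_of_lt hK hs hy fun i => ?_
  rw [hyval i]
  have hnn : 0 ≤ (1 - ∑ j, t j) * ind F i + ∑ j, t j * z (some j) i := by
    have h1 : 0 ≤ ind F i := by unfold ind; split_ifs <;> norm_num
    have h2 : ∀ j, 0 ≤ z (some j) i := by
      intro j; simp only [hz]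
      split_ifs <;> (unfold ind; split_ifs <;> norm_num)
    have h3 : 0 ≤ ∑ j, t j * z (some j) i :=
      Finset.sum_nonneg fun j _ => mul_nonneg (ht0 j) (h2 j)
    have h4 : 0 ≤ 1 - ∑ j, t j := by linarith
    positivity
  rw [abs_of_nonneg hnn]
  simp only [Pi.add_apply, Pi.smul_apply, smul_eq_mul]
  by_cases hi : i ∈ F
  · -- coordinate in the support
    have h1 : |x i + ε * u i| = 1 - ε * w i := by
      rw [hu i hi]
      have : x i + ε * (-x i * w i) = x i * (1 - ε * w i) := by ring
      rw [this, abs_mul, hxF i hi, one_mul, abs_of_pos (by have := hεw i; linarith)]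
    rw [h1]
    have hzi : ∀ j, t j * z (some j) i = t j - (if w j < w i then t j else 0) := by
      intro j
      by_cases hj : j ∈ F
      · simp only [ht, hj, if_true]; simp
      · have hne : j ≠ i := fun h => hj (h ▸ hi)
        have hwne : w j ≠ w i := fun h => hne (hwi h)
        have hzj : z (some j) i = if w i < w j then 1 else 0 := by
          simp only [hz, hj, if_false]
          unfold ind
          simp only [Finset.mem_insert, Finset.mem_filter]
          have : i ≠ j := fun h => hne h.symm
          simp [this, hi]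
        rw [hzj]
        rcases lt_or_gt_of_ne hwne with h | h
        · simp [h, not_lt.2 h.le]
        · simp [h, not_lt.2 h.le]
    have hsum : ∑ j, t j * z (some j) i = ∑ j, t j - ∑ j, (if w j < w i then t j else 0) := by
      rw [← Finset.sum_sub_distrib]
      exact Finset.sum_congr rfl fun j _ => hzi j
    rw [hsum]
    have hind : ind F i = 1 := by simp [ind, hi]
    rw [hind]
    have hle : ∑ j, (if w j < w i then t j else 0) ≤
        2 * ε * ∑ j ∈ Finset.univ.filter (fun j => w j < w i), w j := by
      rw [← Finset.sum_filter, Finset.mul_sum]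
      refine Finset.sum_le_sum fun j _ => ?_
      simp only [ht]; split_ifs
      · have := hw j; positivity
      · exact le_rfl
    have h5 := hw2 i
    have h6 : ε * (2 * ∑ j ∈ Finset.univ.filter (fun j => w j < w i), w j) < ε * w i := by
      gcongr
    nlinarith
  · -- coordinate outside the support
    rw [hxF' i hi, zero_add, abs_mul, abs_of_pos hε0, hu' i hi]
    have hind : ind F i = 0 := by simp [ind, hi]
    rw [hind, mul_zero, zero_add]
    have h1 : t i * z (some i) i ≤ ∑ j, t j * z (some j) i := by
      refine Finset.single_le_sum (f := fun j => t j * z (some j) i) (fun j _ => ?_)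
        (Finset.mem_univ i)
      refine mul_nonneg (ht0 j) ?_
      simp only [hz]
      split_ifs <;> (unfold ind; split_ifs <;> norm_num)
    refine lt_of_lt_of_le ?_ h1
    have h2 : z (some i) i = 1 := by
      simp only [hz, hi, if_false]; unfold ind; simp
    rw [h2, mul_one]
    simp only [ht, hi, if_false]
    have := hw i
    nlinarith

end Pool.Agent.Uncond
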