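import Mathlib
import Pool.Agent.Uncond.Geom

/-!
# Unconditional 0/1 polytopes are covered by `2 ^ n` translates of their interior
-/

set_option autoImplicit false

open Set

namespace Pool.Agent.Uncond

open Pool.Agent.Lib.HadwigerIllum

variable {n : ℕ}

/-- Vertices rejected by the greedy scan of `G` in the complex `D`. -/
def zeta (D : Finset (Finset (Fin n))) (G : Finset (Fin n)) : Finset (Fin n) :=
  Finset.univ.filter (fun w => w ∉ G ∧ insert w (G.filter (· < w)) ∉ D)

/-- The pairs (positive part, rejected set). -/
def tokens (D : Finset (Finset (Fin n))) : Finset (Finset (Fin n) × Finset (Fin n)) :=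
  Finset.univ.filter (fun p => ∃ G, Disjoint p.1 G ∧ p.1 ∪ G ∈ D ∧ zeta D G = p.2)

/-- Rank of a coordinate in the order belonging to `(Q, Z)`; larger ranks come first. -/
def rk (Q Z : Finset (Fin n)) (i : Fin n) : ℕ :=
  if i ∈ Q then 2 * n + i else if i ∈ Z then n - 1 - i else n + i

lemma rk_injective (Q Z : Finset (Fin n)) : Function.Injective (rk Q Z) := by
  intro i j h
  unfold rk at h
  ext
  have hi := i.2
  have hj := j.2
  split_ifs at h <;> omega

/-- Weights. -/
noncomputable def wt (Q Z : Finset (Fin n)) (i : Fin n) : ℝ := 3 ^ rk Q Z i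

lemma wt_lt_iff (Q Z : Finset (Fin n)) (i j : Fin n) :
    wt Q Z i < wt Q Z j ↔ rk Q Z i < rk Q Z j :=
  pow_lt_pow_iff_right₀ (by norm_num)

lemma two_mul_sum_wt_lt (Q Z : Finset (Fin n)) (i : Fin n) :
    2 * ∑ j ∈ Finset.univ.filter (fun j => wt Q Z j < wt Q Z i), wt Q Z j < wt Q Z i := by
  have h1 : ∑ j ∈ Finset.univ.filter (fun j => wt Q Z j < wt Q Z i), wt Q Z j ≤
      ∑ k ∈ Finset.range (rk Q Z i), (3 : ℝ) ^ k := by
    have h2 : ∑ j ∈ Finset.univ.filter (fun j => wt Q Z j < wt Q Z i), wt Q Z j =
        ∑ k ∈ (Finset.univ.filter (fun j => wt Q Z j < wt Q Z i)).image (rk Q Z),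
          (3 : ℝ) ^ k := by
      rw [Finset.sum_image fun a _ b _ h => rk_injective Q Z h]
      rfl
    rw [h2]
    apply Finset.sum_le_sum_of_subset_of_nonneg
    · intro k hk
      obtain ⟨j, hj, rfl⟩ := Finset.mem_image.1 hk
      rw [Finset.mem_range]
      exact (wt_lt_iff Q Z j i).1 (Finset.mem_filter.1 hj).2
    · intros; positivity
  have h3 : ∑ k ∈ Finset.range (rk Q Z i), (3 : ℝ) ^ k = (3 ^ rk Q Z i - 1) / 2 := by
    rw [geom_sum_eq (by norm_num)]; norm_num
  rw [h3] at h1
  unfold wt at h1 ⊢
  linarith

/-- The direction belonging to `(Q, Z)`. -/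
noncomputable def dir (p : Finset (Fin n) × Finset (Fin n)) : Fin n → ℝ :=
  fun i => if i ∈ p.1 then - wt p.1 p.2 i else wt p.1 p.2 i

/-- The complex of an unconditional body. -/
noncomputable def cplx (K : Set (Fin n → ℝ)) : Finset (Finset (Fin n)) := by
  classical exact Finset.univ.filter (fun F => ind F ∈ K)

lemma mem_cplx {K : Set (Fin n → ℝ)} {F : Finset (Fin n)} : F ∈ cplx K ↔ ind F ∈ K := by
  classical
  simp [cplx]

/-- The direction of the token of an extreme point illuminates it. -/
lemma token_illum {K : Set (Fin n → ℝ)} (hK : Convex ℝ K) (hs : Refl K)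
    (hsing : ∀ j, {j} ∈ cplx K) {x : Fin n → ℝ} (hx : x ∈ K)
    (h01 : ∀ i, x i = -1 ∨ x i = 0 ∨ x i = 1) :
    ∃ p ∈ tokens (cplx K), ∃ ε : ℝ, 0 < ε ∧ x + ε • dir p ∈ interior K := by
  classical
  have hdown : ∀ F ∈ cplx K, ∀ G, G ⊆ F → G ∈ cplx K := by
    intro F hF G hG
    rw [mem_cplx] at hF ⊢
    exact ind_mem_iff_solid hK hs hF hG
  set Q : Finset (Fin n) := Finset.univ.filter (fun i => x i = 1) with hQ
  set G : Finset (Fin n) := Finset.univ.filter (fun i => x i = -1) with hG
  set F : Finset (Fin n) := Q ∪ G with hF
  set Z : Finset (Fin n) := zeta (cplx K) G with hZ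
  have hQG : Disjoint Q G := by
    rw [Finset.disjoint_left]
    intro i hi hi'
    have h1 : x i = 1 := by simpa [hQ] using hi
    have h2 : x i = -1 := by simpa [hG] using hi'
    rw [h1] at h2; norm_num at h2
  have hxF : ∀ i ∈ F, |x i| = 1 := by
    intro i hi
    rcases Finset.mem_union.1 hi with h | h
    · have h1 : x i = 1 := by simpa [hQ] using h
      rw [h1]; norm_num
    · have h1 : x i = -1 := by simpa [hG] using h
      rw [h1]; norm_num
  have hxF' : ∀ i ∉ F, x i = 0 := by
    intro i hi
    rcases h01 i with h | h | h
    · exact absurd (Finset.mem_union_right _ (by simp [hG, h])) hi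
    · exact h
    · exact absurd (Finset.mem_union_left _ (by simp [hQ, h])) hi
  have hFD : F ∈ cplx K := by
    rw [mem_cplx]
    refine solid hK hs hx fun i => ?_
    unfold ind
    by_cases h1 : i ∈ F
    · simp [h1, hxF i h1]
    · simp [h1]
  refine ⟨(Q, Z), ?_, ?_⟩
  · simp only [tokens, Finset.mem_filter, Finset.mem_univ, true_and]
    exact ⟨G, hQG, hFD, rfl⟩
  · have hZF : ∀ i ∈ F, i ∉ Z := by
      intro i hi hiZ
      simp only [hZ, zeta, Finset.mem_filter, Finset.mem_univ, true_and] at hiZ
      refine hiZ.2 (hdown F hFD _ ?_)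
      intro k hk
      rcases Finset.mem_insert.1 hk with rfl | hk
      · exact hi
      · exact Finset.mem_union_right _ (Finset.mem_filter.1 hk).1
    apply illum_of_weights hK hs hx F hxF hxF' (wt Q Z)
    · intro i; unfold wt; positivity
    · intro i j h
      unfold wt at h
      exact rk_injective Q Z ((pow_right_injective₀ (by norm_num) (by norm_num)) h)
    · exact two_mul_sum_wt_lt Q Z
    · intro j hj
      rw [← mem_cplx]
      have hjQ : j ∉ Q := fun h => hj (Finset.mem_union_left _ h)
      have hjG : j ∉ G := fun h => hj (Finset.mem_union_right _ h)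
      by_cases hjZ : j ∈ Z
      · have : F.filter (fun i => wt Q Z i < wt Q Z j) = ∅ := by
          rw [Finset.filter_eq_empty_iff]
          intro i hi
          rw [wt_lt_iff]
          have h1 := hZF i hi
          unfold rk
          simp only [hjQ, hjZ, if_true, if_false, h1]
          have h2 := i.2
          have h3 := j.2
          split_ifs <;> omega
        rw [this]
        exact hsing j
      · have h1 : insert j (G.filter (· < j)) ∈ cplx K := by
          by_contra hcon
          exact hjZ (by simp only [hZ, zeta, Finset.mem_filter, Finset.mem_univ, true_and]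
                        exact ⟨hjG, hcon⟩)
        refine hdown _ h1 _ ?_
        intro i hi
        rcases Finset.mem_insert.1 hi with rfl | hi
        · exact Finset.mem_insert_self _ _
        · rw [Finset.mem_filter, wt_lt_iff] at hi
          apply Finset.mem_insert_of_mem
          have h2 := hZF i hi.1
          have h3 := hi.2
          unfold rk at h3
          simp only [hjQ, hjZ, if_false, h2] at h3
          have h4 := i.2
          have h5 := j.2
          split_ifs at h3 with h6
          · omega
          · rw [Finset.mem_filter]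
            refine ⟨?_, ?_⟩
            · rcases Finset.mem_union.1 hi.1 with h | h
              · exact absurd h h6
              · exact h
            · rw [Fin.lt_def]; omega
    · intro i hi
      rcases Finset.mem_union.1 hi with h | h
      · have h1 : x i = 1 := by simpa [hQ] using h
        simp [dir, h, h1]
      · have h1 : x i = -1 := by simpa [hG] using h
        have h2 : i ∉ Q := fun h3 => Finset.disjoint_left.1 hQG h3 h
        simp [dir, h2, h1]
    · intro i hi
      have h2 : i ∉ Q := fun h => hi (Finset.mem_union_left _ h)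
      simp only [dir, h2, if_false]
      unfold wt
      rw [abs_of_pos (by positivity)]

/-- **0/1 unconditional bodies.** -/
theorem cover_zero_one {K : Set (Fin n → ℝ)} (hK : Convex ℝ K) (hc : IsCompact K)
    (hne : (interior K).Nonempty) (hs : Refl K)
    (h01 : ∀ x ∈ K.extremePoints ℝ, ∀ i, x i = -1 ∨ x i = 0 ∨ x i = 1)
    (hcount : (tokens (cplx K)).card ≤ 2 ^ n) :
    CoverBy K (2 ^ n) := by
  classical
  have hsing : ∀ j, {j} ∈ cplx K := by
    intro j
    rw [mem_cplx]
    -- some extreme point has a nonzero `j`-th coordinate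
    obtain ⟨x, hx, hxj⟩ : ∃ x ∈ K.extremePoints ℝ, x j ≠ 0 := by
      by_contra hcon
      push Not at hcon
      have hclosed : IsClosed {x : Fin n → ℝ | x j = 0} := isClosed_eq (by fun_prop) (by fun_prop)
      have hconv : Convex ℝ {x : Fin n → ℝ | x j = 0} := by
        intro x hx y hy a b _ _ _
        simp only [mem_ofPred_eq] at hx hy ⊢
        simp [hx, hy]
      have h1 : K ⊆ {x : Fin n → ℝ | x j = 0} := by
        rw [← closure_convexHull_extremePoints hc hK]
        exact closure_minimal (convexHull_min (fun x hx => hcon x hx) hconv) hclosed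
      obtain ⟨y, hy⟩ := hne
      have h2 := interior_mono h1 hy
      have h3 : interior {x : Fin n → ℝ | x j = 0} = ∅ := by
        rw [Set.eq_empty_iff_forall_notMem]
        intro y hy
        rw [mem_interior] at hy
        obtain ⟨t, ht, hto, hyt⟩ := hy
        obtain ⟨ε, hε, hb⟩ := Metric.isOpen_iff.1 hto y hyt
        have h4 : Function.update y j (y j + ε / 2) ∈ Metric.ball y ε := by
          rw [Metric.mem_ball, dist_pi_lt_iff hε]
          intro i
          by_cases hi : i = j
          · subst hi
            simp only [Function.update_self, Real.dist_eq]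
            rw [add_sub_cancel_left, abs_of_pos (by positivity)]; linarith
          · simp only [Function.update_of_ne hi, dist_self]; exact hε
        have h5 := ht (hb h4)
        have h6 := ht hyt
        simp only [mem_ofPred_eq, Function.update_self] at h5 h6
        rw [h6] at h5; linarith
      rw [h3] at h2
      exact h2
    refine solid hK hs (extremePoints_subset hx) fun i => ?_
    unfold ind
    simp only [Finset.mem_singleton]
    by_cases hi : i = j
    · subst hi
      rcases h01 x hx i with h | h | h
      · simp [h]
      · exact absurd h hxj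
      · simp [h]
    · simp only [hi, if_false, abs_zero]; positivity
  refine coverBy_of_illum_extreme hK hc ((tokens (cplx K)).image dir)
    (Finset.card_image_le.trans hcount) ?_
  intro x hx
  obtain ⟨p, hp, ε, hε, h⟩ := token_illum hK hs hsing (extremePoints_subset hx) (h01 x hx)
  exact ⟨dir p, Finset.mem_image_of_mem _ hp, ε, hε, h⟩

end Pool.Agent.Uncond
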