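import Mathlib
import Pool.Agent.Uncond.ZeroOne

/-!
# Counting tokens
-/

set_option autoImplicit false

namespace Pool.Agent.Uncond

open Finset

section sauer

variable {α : Type*} [DecidableEq α] [Fintype α]

/-- Reverse Sauer inequality: a family of sets strongly shatters at most as many sets as it has
members. -/
theorem card_strongly_shattered_le (A S : Finset (Finset α))
    (hS : ∀ Q ∈ S, ∃ G, Disjoint Q G ∧ ∀ R, R ⊆ Q → G ∪ R ∈ A) : S.card ≤ A.card := by
  have h1 : Disjoint (S.image (fun Q => Qᶜ)) (Aᶜ).shatterer := by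
    rw [Finset.disjoint_left]
    intro P hP hP'
    obtain ⟨Q, hQ, rfl⟩ := mem_image.1 hP
    rw [mem_shatterer] at hP'
    obtain ⟨G, hG, hR⟩ := hS Q hQ
    have hGQ : G ⊆ Qᶜ := fun i hi => by
      rw [mem_compl]; exact fun h => Finset.disjoint_left.1 hG h hi
    obtain ⟨u, hu, hu'⟩ := hP' hGQ
    rw [mem_compl] at hu
    apply hu
    have h2 : u = G ∪ (u ∩ Q) := by
      ext i
      rw [← hu']
      simp only [mem_union, mem_inter, mem_compl]
      tauto
    rw [h2]
    exact hR _ inter_subset_right
  have h2 : (S.image (fun Q => Qᶜ)).card = S.card :=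
    card_image_of_injective _ compl_injective
  have h3 : (S.image (fun Q => Qᶜ)).card + (Aᶜ).shatterer.card ≤
      Fintype.card (Finset α) := by
    rw [← card_union_of_disjoint h1]
    exact card_le_univ _
  have h4 : (Aᶜ).card ≤ (Aᶜ).shatterer.card := card_le_card_shatterer _
  have h5 : A.card + (Aᶜ).card = Fintype.card (Finset α) := by
    rw [card_compl]
    have := card_le_univ A
    omega
  omega

end sauer

variable {n : ℕ}

/-- Pairs (face, set of vertices rejected by its greedy scan) are recovered from the union. -/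
lemma greedy_inj (D : Finset (Finset (Fin n))) (hD : ∀ F ∈ D, ∀ G, G ⊆ F → G ∈ D)
    {F F' Z Z' : Finset (Fin n)} (hF : F ∈ D) (hF' : F' ∈ D) (hZ : Z ⊆ zeta D F)
    (hZ' : Z' ⊆ zeta D F') (h : F ∪ Z = F' ∪ Z') : F = F' ∧ Z = Z' := by
  have key : ∀ {F F' Z Z' : Finset (Fin n)}, F ∈ D → F' ∈ D → Z ⊆ zeta D F →
      Z' ⊆ zeta D F' → F ∪ Z = F' ∪ Z' → ∀ i : Fin n, F.filter (· < i) = F'.filter (· < i) →
      i ∈ F → i ∈ F' := by
    intro F F' Z Z' hF hF' hZ hZ' h i ih hi
    by_contra hcon
    have h1 : i ∈ Z' := by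
      have : i ∈ F' ∪ Z' := by rw [← h]; exact mem_union_left _ hi
      rcases mem_union.1 this with h | h
      · exact absurd h hcon
      · exact h
    have h2 := hZ' h1
    simp only [zeta, mem_filter, mem_univ, true_and] at h2
    apply h2.2
    rw [← ih]
    apply hD F hF
    intro k hk
    rcases mem_insert.1 hk with rfl | hk
    · exact hi
    · exact (mem_filter.1 hk).1
  have hFF : ∀ m : ℕ, ∀ i : Fin n, (i : ℕ) < m → (i ∈ F ↔ i ∈ F') := by
    intro m
    induction m with
    | zero => intro i hi; omega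
    | succ m ih =>
      intro i hi
      have h1 : F.filter (· < i) = F'.filter (· < i) := by
        ext k
        simp only [mem_filter]
        constructor
        · rintro ⟨h2, h3⟩
          exact ⟨(ih k (by rw [Fin.lt_def] at h3; omega)).1 h2, h3⟩
        · rintro ⟨h2, h3⟩
          exact ⟨(ih k (by rw [Fin.lt_def] at h3; omega)).2 h2, h3⟩
      exact ⟨key hF hF' hZ hZ' h i h1, key hF' hF hZ' hZ h.symm i h1.symm⟩
  have h1 : F = F' := by
    ext i; exact hFF (i + 1) i (by omega)
  refine ⟨h1, ?_⟩
  subst h1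
  have h2 : ∀ {Z : Finset (Fin n)}, Z ⊆ zeta D F → Z = (F ∪ Z) \ F := by
    intro Z hZ
    rw [union_sdiff_left, Finset.sdiff_eq_self_of_disjoint]
    rw [Finset.disjoint_left]
    intro i hi hi'
    have := hZ hi
    simp only [zeta, mem_filter, mem_univ, true_and] at this
    exact this.1 hi'
  rw [h2 hZ, h2 hZ', h]

/-- There are at most `2 ^ n` tokens. -/
theorem card_tokens_le (D : Finset (Finset (Fin n)))
    (hD : ∀ F ∈ D, ∀ G, G ⊆ F → G ∈ D) : (tokens D).card ≤ 2 ^ n := by
  classical
  set A : Finset (Fin n) → Finset (Finset (Fin n)) :=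
    fun Z => D.filter (fun F => Z ⊆ zeta D F) with hA
  have h1 : (tokens D).card = ∑ Z : Finset (Fin n), ((tokens D).filter (fun p => p.2 = Z)).card :=
    card_eq_sum_card_fiberwise (fun _ _ => mem_coe.2 (mem_univ _))
  have h2 : ∀ Z : Finset (Fin n), ((tokens D).filter (fun p => p.2 = Z)).card ≤ (A Z).card := by
    intro Z
    have h3 : ((tokens D).filter (fun p => p.2 = Z)).card =
        (((tokens D).filter (fun p => p.2 = Z)).image Prod.fst).card := by
      rw [card_image_of_injOn]
      intro p hp q hq hpq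
      have hp' := (mem_filter.1 (mem_coe.1 hp)).2
      have hq' := (mem_filter.1 (mem_coe.1 hq)).2
      exact Prod.ext hpq (hp'.trans hq'.symm)
    rw [h3]
    apply card_strongly_shattered_le
    intro Q hQ
    obtain ⟨p, hp0, rfl⟩ := mem_image.1 hQ
    obtain ⟨hp, hpZ⟩ := mem_filter.1 hp0
    subst hpZ
    simp only [tokens, mem_filter, mem_univ, true_and] at hp
    obtain ⟨G, hG, hGD, hz⟩ := hp
    refine ⟨G, hG, fun R hR => ?_⟩
    simp only [hA, mem_filter]
    have hGR : G ∪ R ⊆ p.1 ∪ G := by
      intro i hi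
      rcases mem_union.1 hi with h | h
      · exact mem_union_right _ h
      · exact mem_union_left _ (hR h)
    refine ⟨hD _ hGD _ hGR, ?_⟩
    rw [← hz]
    intro i hi
    simp only [zeta, mem_filter, mem_univ, true_and] at hi ⊢
    refine ⟨?_, ?_⟩
    · intro h
      rcases mem_union.1 h with h | h
      · exact hi.1 h
      · apply hi.2
        apply hD _ hGD
        intro k hk
        rcases mem_insert.1 hk with rfl | hk
        · exact mem_union_left _ (hR h)
        · exact mem_union_right _ (mem_filter.1 hk).1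
    · intro h
      apply hi.2
      apply hD _ h
      intro k hk
      rcases mem_insert.1 hk with rfl | hk
      · exact mem_insert_self _ _
      · apply mem_insert_of_mem
        rw [mem_filter] at hk ⊢
        exact ⟨mem_union_left _ hk.1, hk.2⟩
  have h3 : ∑ Z : Finset (Fin n), (A Z).card =
      ((univ : Finset (Finset (Fin n) × Finset (Fin n))).filter
        (fun p => p.1 ∈ A p.2)).card := by
    rw [card_eq_sum_card_fiberwise (f := Prod.snd) (t := univ)
      (fun _ _ => mem_coe.2 (mem_univ _))]
    refine sum_congr rfl fun Z _ => ?_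
    symm
    apply card_bij (fun p _ => p.1)
    · intro p hp
      simp only [mem_filter, mem_univ, true_and] at hp
      rw [← hp.2]; exact hp.1
    · intro p hp q hq hpq
      exact Prod.ext hpq ((mem_filter.1 hp).2.trans (mem_filter.1 hq).2.symm)
    · intro F hF
      exact ⟨(F, Z), by simp [hF], rfl⟩
  rw [h1]
  refine (sum_le_sum fun Z _ => h2 Z).trans ?_
  rw [h3]
  have h4 : ((univ : Finset (Finset (Fin n) × Finset (Fin n))).filter
        (fun p => p.1 ∈ A p.2)).card ≤ (univ : Finset (Finset (Fin n))).card := by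
    apply card_le_card_of_injOn (fun p => p.1 ∪ p.2) (fun _ _ => mem_coe.2 (mem_univ _))
    intro p hp q hq hpq
    simp only [coe_filter, mem_univ, true_and, hA, mem_filter] at hp hq
    obtain ⟨h5, h6⟩ := greedy_inj D hD hp.1 hq.1 hp.2 hq.2 hpq
    exact Prod.ext h5 h6
  simpa using h4

end Pool.Agent.Uncond
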